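import Pool.Agent.H82.KT.TR

/-!
MP_ee74d2_an, theorem KT: row WIN (the cubes of a tube of a shading class in a short interval of
projective time).
-/

set_option autoImplicit false

namespace Pool.Agent.H89.KTN

open MeasureTheory Set
open Pool.Agent.H83.G Pool.Agent.H82.HD Pool.Agent.H82.KT
open Pool.Agent.H22.G (co)

/-- two cubes of a tube with near projective times are near -/
theorem near_cubes {m : ℕ} {CB CH R T δ ε₀ v : ℝ} {z₀ : Z m} {Tu : Pk m} (hCB : 1 ≤ CB)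
    (hCH : 1 ≤ CH)
    (hH : ∀ q q' : Zi m, Inc R δ Tu q → Inc R δ Tu q' →
      |(Lo (ctr (sR R) Tu.1) 1 (co R q - co R q')).1| ≤ CH * R ^ (1 / 2 + 2 * δ) ∧
      ‖(Lo (ctr (sR R) Tu.1) 1 (co R q - co R q')).2.1‖ ≤ CH * R ^ (1 / 2 + 2 * δ))
    (htm : ∀ z z' : Z m, tm (z - z') = tm z - tm z')
    (hB : ∀ z : Z m, ‖z‖ ≤ CB * (‖bp (ctr (sR R) Tu.1) z‖ + |tm z|) ∧
      ‖bp (ctr (sR R) Tu.1) z‖ ≤ CB * (|(Lo (ctr (sR R) Tu.1) 1 z).1| +
        ‖(Lo (ctr (sR R) Tu.1) 1 z).2.1‖))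
    (hR : 1 ≤ R) (hδ : 0 ≤ δ) (_hε : 0 ≤ ε₀) (hδε : 2 * δ + ε₀ ≤ 1 / 2) (hT0 : 0 < T)
    (hts : ∀ q : Zi m, ‖co R q - z₀‖ ≤ ((m : ℝ) + 2) * R →
      T / 2 ≤ tm (co R q) ∧ tm (co R q) ≤ 4 * T)
    {q q' : Zi m} (hq : ‖co R q - z₀‖ ≤ ((m : ℝ) + 2) * R)
    (hq' : ‖co R q' - z₀‖ ≤ ((m : ℝ) + 2) * R) (hi : Inc R δ Tu q) (hi' : Inc R δ Tu q')
    (hv : |(uq R T q : ℝ) - v| ≤ Real.sqrt R * R ^ (-ε₀))
    (hv' : |(uq R T q' : ℝ) - v| ≤ Real.sqrt R * R ^ (-ε₀)) :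
    ‖co R q - co R q'‖ ≤ CB * (2 * CB * CH + 48) * R ^ (1 - ε₀) := by
  have hR0 : (0 : ℝ) < R := by linarith
  set s : ℝ := Real.sqrt R with hs
  have hs1 : 1 ≤ s := by
    rw [hs]
    exact Real.one_le_sqrt.2 hR
  have hs0 : 0 < s := by linarith
  have hss : s * s = R := Real.mul_self_sqrt hR0.le
  set W : ℝ := s * R ^ (-ε₀) with hW
  have hW1 : 1 ≤ W := by
    rw [hW, hs, Real.sqrt_eq_rpow, ← Real.rpow_add hR0]
    exact Real.one_le_rpow hR (by linarith)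
  have hWs : s * W = R ^ (1 - ε₀) := by
    rw [hW, ← mul_assoc, hss, sub_eq_add_neg, Real.rpow_add hR0, Real.rpow_one]
  obtain ⟨h1, h2⟩ := hts q hq
  obtain ⟨h1', h2'⟩ := hts q' hq'
  set t : ℝ := tm (co R q) with ht
  set t' : ℝ := tm (co R q') with ht'
  have ht0 : 0 < t := by linarith
  have ht0' : 0 < t' := by linarith
  have hfl : ∀ q : Zi m, (uq R T q : ℝ) ≤ T ^ 2 / (s * tm (co R q)) ∧
      T ^ 2 / (s * tm (co R q)) - 1 < uq R T q := by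
    intro q
    unfold uq
    exact ⟨Int.floor_le _, Int.sub_one_lt_floor _⟩
  obtain ⟨h5, h6⟩ := hfl q
  obtain ⟨h5', h6'⟩ := hfl q'
  rw [← ht] at h5 h6
  rw [← ht'] at h5' h6'
  set x : ℝ := T ^ 2 / (s * t) with hxd
  set x' : ℝ := T ^ 2 / (s * t') with hxd'
  have hx3 : |x - x'| ≤ 3 * W := by
    have e1 := abs_le.1 hv
    have e2 := abs_le.1 hv'
    rw [abs_le]
    constructor
    · linarith [e1.1, e1.2, e2.1, e2.2]
    · linarith [e1.1, e1.2, e2.1, e2.2]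
  have htt : |t - t'| ≤ 48 * R ^ (1 - ε₀) := by
    have e1 : (t - t') * T ^ 2 = -((x - x') * (s * (t * t'))) := by
      rw [hxd, hxd']
      field_simp
      ring
    have e2 : |t - t'| * T ^ 2 = |x - x'| * (s * (t * t')) := by
      have := congrArg abs e1
      rwa [abs_mul, abs_neg, abs_mul, abs_of_pos (by positivity : 0 < T ^ 2),
        abs_of_pos (by positivity : 0 < s * (t * t'))] at this
    have e3 : t * t' ≤ 16 * T ^ 2 := by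
      have := mul_le_mul h2 h2' ht0'.le (by positivity)
      linarith
    have e4 : |x - x'| * (s * (t * t')) ≤ 3 * W * (s * (16 * T ^ 2)) := by gcongr
    have e5 : 3 * W * (s * (16 * T ^ 2)) = 48 * R ^ (1 - ε₀) * T ^ 2 := by
      rw [← hWs]
      ring
    have e6 : |t - t'| * T ^ 2 ≤ 48 * R ^ (1 - ε₀) * T ^ 2 := by linarith
    exact le_of_mul_le_mul_right e6 (by positivity)
  obtain ⟨g1, g2⟩ := hH q q' hi hi'
  obtain ⟨b1, b2⟩ := hB (co R q - co R q')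
  have hRe : R ^ (1 / 2 + 2 * δ) ≤ R ^ (1 - ε₀) :=
    Real.rpow_le_rpow_of_exponent_le hR (by linarith)
  have hρ0 : 0 < R ^ (1 - ε₀) := Real.rpow_pos_of_pos hR0 _
  have hDn : ‖bp (ctr (sR R) Tu.1) (co R q - co R q')‖ ≤ 2 * CB * CH * R ^ (1 - ε₀) := by
    calc ‖bp (ctr (sR R) Tu.1) (co R q - co R q')‖
        ≤ CB * (|(Lo (ctr (sR R) Tu.1) 1 (co R q - co R q')).1| +
          ‖(Lo (ctr (sR R) Tu.1) 1 (co R q - co R q')).2.1‖) := b2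
      _ ≤ CB * (CH * R ^ (1 / 2 + 2 * δ) + CH * R ^ (1 / 2 + 2 * δ)) := by gcongr
      _ ≤ CB * (CH * R ^ (1 - ε₀) + CH * R ^ (1 - ε₀)) := by gcongr
      _ = 2 * CB * CH * R ^ (1 - ε₀) := by ring
  have htm' : |tm (co R q - co R q')| ≤ 48 * R ^ (1 - ε₀) := by
    rw [htm]
    exact htt
  calc ‖co R q - co R q'‖ ≤ CB * (‖bp (ctr (sR R) Tu.1) (co R q - co R q')‖ +
        |tm (co R q - co R q')|) := b1
    _ ≤ CB * (2 * CB * CH * R ^ (1 - ε₀) + 48 * R ^ (1 - ε₀)) := by gcongr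
    _ = CB * (2 * CB * CH + 48) * R ^ (1 - ε₀) := by ring

/-- the balls of near cubes are near -/
theorem near_balls {m : ℕ} {D R ρ : ℝ} (hρ : 0 < ρ)
    (hC : ∀ z : Z m, ‖z - ρ • zc (cb ρ z)‖ ≤ ((m : ℝ) + 1) * ρ)
    {q q' : Zi m} (h : ‖co R q - co R q'‖ ≤ D * ρ) :
    ‖(zc (bl R ρ q) : Z m) - zc (bl R ρ q')‖ ≤ D + 2 * ((m : ℝ) + 1) := by
  have h1 := hC (co R q)
  have h2 := hC (co R q')
  have e1 : ρ • ((zc (bl R ρ q) : Z m) - zc (bl R ρ q')) =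
      (co R q - co R q') - (co R q - ρ • zc (cb ρ (co R q))) +
        (co R q' - ρ • zc (cb ρ (co R q'))) := by
    have e2 : bl R ρ q = cb ρ (co R q) := rfl
    have e3 : bl R ρ q' = cb ρ (co R q') := rfl
    rw [e2, e3, smul_sub]
    abel
  have e4 : ρ * ‖(zc (bl R ρ q) : Z m) - zc (bl R ρ q')‖ ≤
      ρ * (D + 2 * ((m : ℝ) + 1)) := by
    have e5 : ‖ρ • ((zc (bl R ρ q) : Z m) - zc (bl R ρ q'))‖ =
        ρ * ‖(zc (bl R ρ q) : Z m) - zc (bl R ρ q')‖ := by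
      rw [norm_smul, Real.norm_eq_abs, abs_of_pos hρ]
    rw [← e5, e1]
    calc ‖(co R q - co R q') - (co R q - ρ • zc (cb ρ (co R q))) +
          (co R q' - ρ • zc (cb ρ (co R q')))‖
        ≤ ‖(co R q - co R q') - (co R q - ρ • zc (cb ρ (co R q)))‖ +
          ‖co R q' - ρ • zc (cb ρ (co R q'))‖ := norm_add_le _ _
      _ ≤ (‖co R q - co R q'‖ + ‖co R q - ρ • zc (cb ρ (co R q))‖) +
          ‖co R q' - ρ • zc (cb ρ (co R q'))‖ := by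
            gcongr
            exact norm_sub_le _ _
      _ ≤ (D * ρ + ((m : ℝ) + 1) * ρ) + ((m : ℝ) + 1) * ρ := by gcongr
      _ = ρ * (D + 2 * ((m : ℝ) + 1)) := by ring
  exact le_of_mul_le_mul_left e4 hρ

theorem pf_WIN (hPRJ : T_PRJ) (hBPG : T_BPG) (hHG1 : Pool.Agent.H22.G.T_HG1) (hCBN : T_CBN) :
    T_WIN := by
  classical
  intro m
  obtain ⟨CP, hCP, hP⟩ := hPRJ m
  obtain ⟨CH, hCH, hH⟩ := hHG1 m
  obtain ⟨hadd, hsm, htm, hwv, hD⟩ := hBPG m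
  obtain ⟨CB, hCB, hB, hB2⟩ := hD 3 (by norm_num)
  obtain ⟨hN1, hN2, CN, hCN, hN3, hN4⟩ := hCBN m
  have hm0 : (0 : ℝ) ≤ m := Nat.cast_nonneg m
  set D : ℝ := CB * (2 * CB * CH + 48) with hDdef
  have hD0 : 0 ≤ D := by
    rw [hDdef]
    positivity
  set ρ : ℝ := D + 2 * ((m : ℝ) + 1) with hρdef
  have hρ1 : 1 ≤ ρ := by
    rw [hρdef]
    linarith
  have hK : 0 ≤ CN * ρ ^ (m + 2) := by positivity
  refine ⟨2 * (CN * ρ ^ (m + 2)) + 1, by linarith, ?_⟩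
  intro R T δ ε₀ v z₀ Tu QQ l k hR hδ hε hδε hT hz0 hz1 hTu hQQ
  have hR0 : (0 : ℝ) < R := by linarith
  have hT0 : 0 < T := by nlinarith
  have hr0 : 0 < R ^ (1 - ε₀) := Real.rpow_pos_of_pos hR0 _
  obtain ⟨hts, _⟩ := hP R T δ z₀ hR hδ hT hz0 hz1
  set F := QQ.filter (fun q => Inc R δ Tu q ∧
    Sh QQ R (R ^ (1 - ε₀)) δ l k Tu (bl R (R ^ (1 - ε₀)) q) ∧
    |(uq R T q : ℝ) - v| ≤ Real.sqrt R * R ^ (-ε₀)) with hF
  have hFm : ∀ q ∈ F, q ∈ QQ ∧ Inc R δ Tu q ∧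
      Sh QQ R (R ^ (1 - ε₀)) δ l k Tu (bl R (R ^ (1 - ε₀)) q) ∧
      |(uq R T q : ℝ) - v| ≤ Real.sqrt R * R ^ (-ε₀) := by
    intro q hq
    rw [hF, Finset.mem_filter] at hq
    exact hq
  have hgoal : (F.card : ℝ) ≤ 2 * (CN * ρ ^ (m + 2)) * 2 ^ l := by
    rcases Finset.eq_empty_or_nonempty F with h0 | ⟨q0, hq0⟩
    · rw [h0, Finset.card_empty, Nat.cast_zero]
      positivity
    · have hballs : ((F.image (bl R (R ^ (1 - ε₀)))).card : ℝ) ≤ CN * ρ ^ (m + 2) := by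
        refine hN3 ρ (zc (bl R (R ^ (1 - ε₀)) q0)) _ hρ1 fun j hj => ?_
        obtain ⟨q, hq, rfl⟩ := Finset.mem_image.1 hj
        obtain ⟨a1, a2, a3, a4⟩ := hFm q hq
        obtain ⟨c1, c2, c3, c4⟩ := hFm q0 hq0
        have hn := near_cubes (CB := CB) (CH := CH) (v := v) hCB hCH
          (fun p p' hp hp' => hH R δ Tu p p' hR hδ hTu hp hp')
          (fun z z' => (htm z z' 0).2.1)
          (fun z => ⟨(hB _ z hTu).2.1, (hB _ z hTu).2.2.1⟩)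
          hR hδ hε hδε hT0 (fun p hp => ⟨(hts p hp).1, (hts p hp).2.1⟩)
          (hQQ q a1) (hQQ q0 c1) a2 c2 a4 c4
        exact near_balls hr0 (fun z => hN1 (R ^ (1 - ε₀)) z hr0) hn
      have hcard : F.card ≤ 2 ^ (l + 1) * (F.image (bl R (R ^ (1 - ε₀)))).card := by
        refine Finset.card_le_mul_card_image F (2 ^ (l + 1)) fun B hB => ?_
        obtain ⟨q, hq, rfl⟩ := Finset.mem_image.1 hB
        obtain ⟨a1, a2, a3, a4⟩ := hFm q hq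
        have e1 : (F.filter (fun x => bl R (R ^ (1 - ε₀)) x = bl R (R ^ (1 - ε₀)) q)).card ≤
            mu QQ R (R ^ (1 - ε₀)) δ Tu (bl R (R ^ (1 - ε₀)) q) := by
          unfold mu
          refine Finset.card_le_card fun x hx => ?_
          rw [Finset.mem_filter] at hx
          obtain ⟨d1, d2, d3, d4⟩ := hFm x hx.1
          simp only [Finset.mem_filter]
          exact ⟨d1, hx.2, d2⟩
        exact e1.trans a3.2.1.le
      have hcard' : (F.card : ℝ) ≤ 2 ^ (l + 1) * ((F.image (bl R (R ^ (1 - ε₀)))).card : ℝ) := by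
        exact_mod_cast hcard
      calc (F.card : ℝ) ≤ 2 ^ (l + 1) * ((F.image (bl R (R ^ (1 - ε₀)))).card : ℝ) := hcard'
        _ ≤ 2 ^ (l + 1) * (CN * ρ ^ (m + 2)) := by gcongr
        _ = 2 * (CN * ρ ^ (m + 2)) * 2 ^ l := by ring
  refine hgoal.trans ?_
  have h2 : (0 : ℝ) ≤ 2 ^ l := by positivity
  nlinarith

end Pool.Agent.H89.KTN
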